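import Pool.Agent.Results.MP_a49cf6_nt.DigitRecurrences
import Pool.Agent.TH768.DG.Exp
import Pool.Agent.R523.MixedSharp

/-!
# The digits of the numbers `u e + v π`

If `1, e, π` are linearly dependent over `ℚ`, then `u e + v π` is rational for all integer vectors
`(u, v)` on one line through the origin, and only for these. A number `x` is rational if and only if
the first `L` digits of `x` satisfy, for all `L`, a linear recurrence of bounded order.

Let `N(x; L)` be the least order of a linear recurrence over `ℚ` for the first `L` terms of an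
expansion `x = n + ∑ s_i b ^ (-i-1)` with integers `n` and `s_i`, `|s_i| ≤ b ^ h` (the usual digits are
one choice). For random digits this is about `L / 2`. We prove that there is one line through the
origin such that `limsup N(u e + v π; L) / L ≥ 1 / 4` for all integer vectors `(u, v)` off this line, in
all bases `b ≥ 2` and for all `h`; more generally `liminf N(y; L) / L + limsup N(y'; L) / L ≥ 1 / 2` for
any real `t` and any two non-proportional combinations `y, y'` of `e` and `t`, with different bases for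
`y` and `y'` allowed, and similarly for `n + 1` combinations of `n` powers of `e` and `t`, where
`1 / 2` is replaced by `n / (n + 1)`.

Proof: elimination of `t` and the measure of linear independence of the powers of `e` (starting file
`Pool/Agent/W472/AC/EMeas2.lean`, turned into simultaneous approximation in
`Pool/Agent/TH768/DG/Trans.lean`) give a measure of simultaneous approximation for the `n + 1`
combinations which does not depend on `t`; then we use that short recurrences give good rational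
approximations (starting file `Pool/Agent/Y928/PL/Mixed.lean`).
-/

set_option autoImplicit false

namespace Pool.Agent.Results.MP_58e087_nt.DigitRecurrences

open Finset
open Pool.Agent.Results.MP_a49cf6_nt.DigitRecurrences (F F_linear)

/-- `x = n + ∑ s_i b ^ (-i-1)` with an integer `n` and integers `s_i`, `|s_i| ≤ b ^ h` -/
def Expansion (b h : ℕ) (x : ℝ) (s : ℕ → ℤ) : Prop :=
  (∀ i, |s i| ≤ ((b ^ h : ℕ) : ℤ)) ∧
    ∃ n : ℤ, HasSum (fun i : ℕ => (s i : ℝ) / (b : ℝ) ^ (i + 1)) (x - n)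

/-- the first `L` terms `s_0, …, s_(L-1)` satisfy the linear recurrence
`s_(i+m) = c_0 s_i + … + c_(m-1) s_(i+m-1)` -/
def Recurrence (s : ℕ → ℤ) (c : ℕ → ℚ) (L m : ℕ) : Prop :=
  ∀ i : ℕ, i + m < L → (s (i + m) : ℚ) = ∑ l ∈ range m, c l * (s (i + l) : ℚ)

/-- the least order of a linear recurrence over `ℚ` satisfied by the first `L` terms of an expansion
of `x` in base `b` with `|s_i| ≤ b ^ h` -/
noncomputable def order (b h : ℕ) (x : ℝ) (L : ℕ) : ℕ :=
  sInf {m | ∃ (s : ℕ → ℤ) (c : ℕ → ℚ), Expansion b h x s ∧ Recurrence s c L m}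

/-- the integral combinations of `e ^ κ_1, …, e ^ κ_n, t` with the rows of `M` as coefficients -/
noncomputable def comb {n : ℕ} (κ : Fin n → ℤ) (t : ℝ) (M : Matrix (Fin (n + 1)) (Fin (n + 1)) ℤ)
    (j : Fin (n + 1)) : ℝ :=
  (M j 0 : ℝ) * t + ∑ i : Fin n, (M j i.succ : ℝ) * Real.exp (κ i)

/-- the measure, uniform in `t` -/
theorem meas_comb {n : ℕ} (hn : 1 ≤ n) (κ : Fin n → ℤ) (hκ : Function.Injective κ)
    (h0 : ∀ i, κ i ≠ 0) (H : ℕ) (η : ℝ) (hη : 0 < η) :
    ∃ c0 : ℝ, 0 < c0 ∧ ∀ (t : ℝ) (M : Matrix (Fin (n + 1)) (Fin (n + 1)) ℤ), M.det ≠ 0 →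
      (∀ i j, |M i j| ≤ H) →
      Pool.Agent.W47.JL.Meas (n + 1) (comb κ t M) (1 + 1 / n + η) c0 0 := by
  classical
  have hn0 : (0 : ℝ) < n := by exact_mod_cast hn
  obtain ⟨c1, hc1, hM1⟩ := Pool.Agent.TH768.DG.normal_exp κ hκ h0 (η * n) (by positivity)
  obtain ⟨c, hc, hM⟩ := Pool.Agent.TH768.DG.transfer hn _ (n + η * n) c1 (by nlinarith) hc1 hM1
  have hμ : ((n : ℝ) + η * n + 1) / n = 1 + 1 / n + η := by field_simp; ring
  rw [hμ] at hM
  -- a bound for the determinants and the adjugates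
  obtain ⟨B, hB1, hB⟩ : ∃ B : ℝ, 1 ≤ B ∧ ∀ M : Matrix (Fin (n + 1)) (Fin (n + 1)) ℤ,
      (∀ i j, |M i j| ≤ H) → |(M.det : ℝ)| ≤ B ∧ ∀ i, ∑ j, |(M.adjugate i j : ℝ)| ≤ B := by
    have hfin : Set.Finite {M : Fin (n + 1) → Fin (n + 1) → ℤ | ∀ i j, |M i j| ≤ H} := by
      refine Set.Finite.subset (Set.Finite.pi fun _ : Fin (n + 1) =>
        Set.Finite.pi fun _ : Fin (n + 1) => Set.finite_Icc (-(H : ℤ)) H) fun M hM => ?_
      rw [Set.mem_pi]
      intro i _
      rw [Set.mem_pi]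
      intro j _
      exact abs_le.1 (hM i j)
    obtain ⟨f, hf⟩ : ∃ f : Matrix (Fin (n + 1)) (Fin (n + 1)) ℤ → ℝ, f = fun M =>
      |(M.det : ℝ)| + ∑ i, ∑ j, |(M.adjugate i j : ℝ)| := ⟨_, rfl⟩
    obtain ⟨B0, hB0⟩ := (hfin.image fun M => f (Matrix.of M)).bddAbove
    refine ⟨max 1 B0, le_max_left _ _, fun M hMH => ?_⟩
    have h1 : f M ≤ B0 := hB0 ⟨fun i j => M i j, hMH, rfl⟩
    rw [hf] at h1
    beta_reduce at h1
    have h2 : ∀ i, ∑ j, |(M.adjugate i j : ℝ)| ≤ ∑ i, ∑ j, |(M.adjugate i j : ℝ)| := fun i =>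
      Finset.single_le_sum (f := fun i => ∑ j, |(M.adjugate i j : ℝ)|)
        (fun _ _ => Finset.sum_nonneg fun _ _ => abs_nonneg _) (mem_univ i)
    have h3 : 0 ≤ ∑ i, ∑ j, |(M.adjugate i j : ℝ)| :=
      Finset.sum_nonneg fun _ _ => Finset.sum_nonneg fun _ _ => abs_nonneg _
    have h4 := le_max_right 1 B0
    have h5 := abs_nonneg (M.det : ℝ)
    exact ⟨by linarith, fun i => by
      have := h2 i
      linarith⟩
  have hB0 : 0 < B := by linarith
  refine ⟨c / (B * B ^ ((1 : ℝ) / n + η)), by positivity, fun t M hdet hMH => ?_⟩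
  obtain ⟨hD, hA⟩ := hB M hMH
  intro q hq p
  have hqR : (1 : ℝ) ≤ q := by exact_mod_cast hq
  have hq0 : (0 : ℝ) < q := by linarith
  have hDN : 1 ≤ M.det.natAbs := Int.natAbs_pos.mpr hdet
  -- the sign of the determinant
  obtain ⟨i, hi⟩ := hM (q * M.det.natAbs) (Nat.mul_pos hq hDN)
    (fun i => M.det.sign * ∑ j, M.adjugate i.succ j * p j)
  -- the identity
  have hadj : ∀ k : Fin (n + 1), ∑ j, M.adjugate i.succ j * M j k = if i.succ = k then M.det else 0 := by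
    intro k
    have h1 := congrFun (congrFun (Matrix.adjugate_mul M) i.succ) k
    rw [Matrix.mul_apply] at h1
    rw [h1, Matrix.smul_apply, Matrix.one_apply]
    split_ifs <;> simp
  have hx : ∑ j, (M.adjugate i.succ j : ℝ) * comb κ t M j = (M.det : ℝ) * Real.exp (κ i) := by
    unfold comb
    simp only [mul_add, Finset.mul_sum, Finset.sum_add_distrib]
    have h1 : ∑ j, (M.adjugate i.succ j : ℝ) * ((M j 0 : ℝ) * t) = 0 := by
      have h2 := hadj 0
      rw [if_neg (Fin.succ_ne_zero i)] at h2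
      have h3 : ∑ j, (M.adjugate i.succ j : ℝ) * (M j 0 : ℝ) = 0 := by exact_mod_cast h2
      calc ∑ j, (M.adjugate i.succ j : ℝ) * ((M j 0 : ℝ) * t) =
          (∑ j, (M.adjugate i.succ j : ℝ) * (M j 0 : ℝ)) * t := by
            rw [Finset.sum_mul]
            exact Finset.sum_congr rfl fun j _ => by ring
        _ = 0 := by rw [h3, zero_mul]
    rw [h1, zero_add, Finset.sum_comm]
    rw [Finset.sum_eq_single i]
    · have h2 := hadj i.succ
      rw [if_pos rfl] at h2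
      have h3 : ∑ j, (M.adjugate i.succ j : ℝ) * (M j i.succ : ℝ) = (M.det : ℝ) := by
        exact_mod_cast h2
      rw [← h3, Finset.sum_mul]
      exact Finset.sum_congr rfl fun j _ => by ring
    · intro k _ hk
      have h2 := hadj k.succ
      rw [if_neg (fun h => hk (Fin.succ_injective _ h).symm)] at h2
      have h3 : ∑ j, (M.adjugate i.succ j : ℝ) * (M j k.succ : ℝ) = 0 := by exact_mod_cast h2
      calc ∑ j, (M.adjugate i.succ j : ℝ) * ((M j k.succ : ℝ) * Real.exp (κ k)) =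
          (∑ j, (M.adjugate i.succ j : ℝ) * (M j k.succ : ℝ)) * Real.exp (κ k) := by
            rw [Finset.sum_mul]
            exact Finset.sum_congr rfl fun j _ => by ring
        _ = 0 := by rw [h3, zero_mul]
    · intro h
      exact absurd (mem_univ i) h
  by_contra hcon
  push Not at hcon
  rw [Real.rpow_zero] at hi
  simp only [Real.rpow_zero, mul_one] at hcon
  rw [mul_one] at hi
  obtain ⟨e, he⟩ : ∃ e : ℝ, e = 1 / (n : ℝ) + η := ⟨_, rfl⟩
  have he0 : 0 < e := by rw [he]; positivity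
  have hexp : 1 + 1 / (n : ℝ) + η - 1 = e := by rw [he]; ring
  rw [hexp] at hi hcon
  rw [← he] at hcon
  obtain ⟨Q, hQ⟩ : ∃ Q : ℝ, Q = (q : ℝ) ^ e := ⟨_, rfl⟩
  have hQ1 : 1 ≤ Q := by rw [hQ]; exact Real.one_le_rpow hqR he0.le
  have hQ0 : 0 < Q := by linarith
  rw [← hQ] at hcon
  have hδ : ∀ j, |(q : ℝ) * comb κ t M j - p j| < c / (B * B ^ e) / Q := fun j => by
    rw [lt_div_iff₀ hQ0, mul_comm]
    exact hcon j
  have hsgn : (M.det.natAbs : ℝ) = M.det.sign * (M.det : ℝ) := by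
    rw [Nat.cast_natAbs, ← Int.sign_mul_self_eq_abs]
    push_cast
    ring
  have hsgn1 : |(M.det.sign : ℝ)| = 1 := by
    rcases lt_or_gt_of_ne hdet with h | h
    · rw [Int.sign_eq_neg_one_of_neg h]; simp
    · rw [Int.sign_eq_one_of_pos h]; simp
  have hlin : ((q * M.det.natAbs : ℕ) : ℝ) * Real.exp (κ i) -
      ((M.det.sign * ∑ j, M.adjugate i.succ j * p j : ℤ) : ℝ) =
      M.det.sign * ∑ j, (M.adjugate i.succ j : ℝ) * ((q : ℝ) * comb κ t M j - p j) := by
    push_cast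
    rw [hsgn]
    have h1 : ∑ j, (M.adjugate i.succ j : ℝ) * ((q : ℝ) * comb κ t M j - p j) =
        (q : ℝ) * (∑ j, (M.adjugate i.succ j : ℝ) * comb κ t M j) -
        ∑ j, (M.adjugate i.succ j : ℝ) * (p j : ℝ) := by
      rw [Finset.mul_sum, ← Finset.sum_sub_distrib]
      exact Finset.sum_congr rfl fun j _ => by ring
    rw [h1, hx]
    ring
  have hsmall : |((q * M.det.natAbs : ℕ) : ℝ) * Real.exp (κ i) -
      ((M.det.sign * ∑ j, M.adjugate i.succ j * p j : ℤ) : ℝ)| < B * (c / (B * B ^ e) / Q) := by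
    rw [hlin, abs_mul, hsgn1, one_mul]
    have hne : ∃ j, M.adjugate i.succ j ≠ 0 := by
      by_contra hall
      push Not at hall
      have h2 := hadj i.succ
      rw [if_pos rfl] at h2
      apply hdet
      rw [← h2]
      exact Finset.sum_eq_zero fun j _ => by rw [hall j, zero_mul]
    obtain ⟨j1, hj1⟩ := hne
    calc |∑ j, (M.adjugate i.succ j : ℝ) * ((q : ℝ) * comb κ t M j - p j)| ≤
        ∑ j, |(M.adjugate i.succ j : ℝ) * ((q : ℝ) * comb κ t M j - p j)| :=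
          Finset.abs_sum_le_sum_abs _ _
      _ < ∑ j, |(M.adjugate i.succ j : ℝ)| * (c / (B * B ^ e) / Q) := by
          refine Finset.sum_lt_sum (fun j _ => ?_) ⟨j1, mem_univ _, ?_⟩
          · rw [abs_mul]
            exact mul_le_mul_of_nonneg_left (hδ j).le (abs_nonneg _)
          · rw [abs_mul]
            exact mul_lt_mul_of_pos_left (hδ j1) (abs_pos.mpr (by exact_mod_cast hj1))
      _ = (∑ j, |(M.adjugate i.succ j : ℝ)|) * (c / (B * B ^ e) / Q) := by rw [Finset.sum_mul]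
      _ ≤ B * (c / (B * B ^ e) / Q) := mul_le_mul_of_nonneg_right (hA _) (by positivity)
  have hDR : (M.det.natAbs : ℝ) ≤ B := by
    have h1 : (M.det.natAbs : ℝ) = |(M.det : ℝ)| := by
      rw [Nat.cast_natAbs, Int.cast_abs]
    rw [h1]
    exact hD
  have hDR0 : (0 : ℝ) < M.det.natAbs := by exact_mod_cast hDN
  have hpow : ((q * M.det.natAbs : ℕ) : ℝ) ^ e ≤ Q * B ^ e := by
    push_cast
    rw [Real.mul_rpow hq0.le hDR0.le, ← hQ]
    exact mul_le_mul_of_nonneg_left (Real.rpow_le_rpow hDR0.le hDR he0.le) hQ0.le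
  have hBe : 0 < B ^ e := Real.rpow_pos_of_pos hB0 _
  have h9 : c < Q * B ^ e * (B * (c / (B * B ^ e) / Q)) := by
    refine hi.trans_lt ?_
    have hp0 : 0 < ((q * M.det.natAbs : ℕ) : ℝ) ^ e := by
      apply Real.rpow_pos_of_pos
      push_cast
      positivity
    calc ((q * M.det.natAbs : ℕ) : ℝ) ^ e * |((q * M.det.natAbs : ℕ) : ℝ) * Real.exp (κ i) -
        ((M.det.sign * ∑ j, M.adjugate i.succ j * p j : ℤ) : ℝ)|
        < ((q * M.det.natAbs : ℕ) : ℝ) ^ e * (B * (c / (B * B ^ e) / Q)) :=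
          mul_lt_mul_of_pos_left hsmall hp0
      _ ≤ _ := mul_le_mul_of_nonneg_right hpow (by positivity)
  have h10 : Q * B ^ e * (B * (c / (B * B ^ e) / Q)) = c := by field_simp
  rw [h10] at h9
  exact lt_irrefl _ h9

/-- the case of `e` and `t` -/
lemma comb_two (t : ℝ) (u v u' v' : ℤ) :
    comb (n := 1) (fun _ => 1) t !![v, u; v', u'] =
      ![(u : ℝ) * Real.exp 1 + v * t, (u' : ℝ) * Real.exp 1 + v' * t] := by
  funext j
  unfold comb
  fin_cases j <;> simp [add_comm]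

lemma inj1 : Function.Injective (fun _ : Fin 1 => (1 : ℤ)) := fun _ _ _ => Subsingleton.elim _ _

lemma bound_two {H : ℕ} {u v u' v' : ℤ} (hu : |u| ≤ H) (hv : |v| ≤ H) (hu' : |u'| ≤ H)
    (hv' : |v'| ≤ H) : ∀ i j, |(!![v, u; v', u'] : Matrix (Fin 2) (Fin 2) ℤ) i j| ≤ H := by
  intro i j
  fin_cases i <;> fin_cases j <;> simp [hu, hv, hu', hv']

lemma det_two {u v u' v' : ℤ} (h : u * v' ≠ u' * v) :
    (!![v, u; v', u'] : Matrix (Fin 2) (Fin 2) ℤ).det ≠ 0 := by
  rw [Matrix.det_fin_two_of]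
  intro h0
  apply h
  linarith

/-! ### the order -/

lemma expansion_exists (b h : ℕ) (hb : 2 ≤ b) (hh : 1 ≤ h) (x : ℝ) : ∃ s, Expansion b h x s := by
  have : NeZero b := ⟨by omega⟩
  refine ⟨fun i => ((Real.digits (Int.fract x) b i : ℕ) : ℤ), fun i => ?_, ⌊x⌋, ?_⟩
  · have h1 : (Real.digits (Int.fract x) b i : ℕ) < b := (Real.digits (Int.fract x) b i).2
    have h2 : b ≤ b ^ h := by
      calc b = b ^ 1 := (pow_one b).symm
        _ ≤ b ^ h := Nat.pow_le_pow_right (by omega) hh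
    beta_reduce
    rw [abs_of_nonneg (by positivity)]
    exact_mod_cast h1.le.trans h2
  · have h1 := Real.hasSum_ofDigitsTerm_digits (Int.fract x) (b := b) (by omega)
      ⟨Int.fract_nonneg x, Int.fract_lt_one x⟩
    rw [Int.self_sub_floor]
    convert h1 using 1
    funext i
    unfold Real.ofDigitsTerm
    rw [div_eq_mul_inv]
    push_cast
    rfl

lemma order_mem (b h : ℕ) (hb : 2 ≤ b) (hh : 1 ≤ h) (x : ℝ) (L : ℕ) :
    ∃ (s : ℕ → ℤ) (c : ℕ → ℚ), Expansion b h x s ∧ Recurrence s c L (order b h x L) := by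
  have h1 : order b h x L ∈ {m | ∃ (s : ℕ → ℤ) (c : ℕ → ℚ), Expansion b h x s ∧
      Recurrence s c L m} := by
    apply Nat.sInf_mem
    obtain ⟨s, hs⟩ := expansion_exists b h hb hh x
    exact ⟨L, s, fun _ => 0, hs, fun i hi => by omega⟩
  exact h1

lemma order_anti (b h h' : ℕ) (hb : 2 ≤ b) (hh : 1 ≤ h) (hle : h ≤ h') (x : ℝ) (L : ℕ) :
    order b h' x L ≤ order b h x L := by
  obtain ⟨s, c, hs, hc⟩ := order_mem b h hb hh x L
  refine Nat.sInf_le ⟨s, c, ⟨fun i => (hs.1 i).trans ?_, hs.2⟩, hc⟩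
  have : b ^ h ≤ b ^ h' := Nat.pow_le_pow_right (by omega) hle
  exact_mod_cast this

/-- part (1), with a positive constant -/
lemma general {n : ℕ} (hn : 1 ≤ n) (κ : Fin n → ℤ) (hκ : Function.Injective κ)
    (h0 : ∀ i, κ i ≠ 0) (H h : ℕ) (η : ℝ) (hh : 1 ≤ h) (hη : 0 < η) : ∃ C : ℝ, 0 < C ∧
      ∀ (t : ℝ) (M : Matrix (Fin (n + 1)) (Fin (n + 1)) ℤ), M.det ≠ 0 → (∀ i j, |M i j| ≤ H) →
      ∀ b : Fin (n + 1) → ℕ, (∀ j, 2 ≤ b j) → ∀ L : Fin (n + 1) → ℕ,
        ∃ j, (L j : ℝ) * Real.log (b j) ≤ (1 + 1 / (n : ℝ) + η) *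
          ∑ i, F C (order (b i) h (comb κ t M i) (L i)) * Real.log (b i) := by
  have hn0 : (0 : ℝ) < n := by exact_mod_cast hn
  have h1n : 0 < 1 / (n : ℝ) := by positivity
  obtain ⟨c0, hc0, hm⟩ := meas_comb hn κ hκ h0 H η hη
  obtain ⟨C, hC0, hC⟩ := Pool.Agent.R523.MixedSharp.mixedSharp h hh (1 + 1 / (n : ℝ) + η) c0
    (by linarith) hc0
  refine ⟨C, hC0, fun t M hdet hMH b hb L => ?_⟩
  choose s c hs hc using fun i => order_mem (b i) h (hb i) hh (comb κ t M i) (L i)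
  exact hC (n + 1) (comb κ t M) (hm t M hdet hMH) b hb s (fun j => (hs j).1) (fun j => (hs j).2) L
    (fun i => order (b i) h (comb κ t M i) (L i)) (fun j => ⟨c j, hc j⟩)

/-- the case of `e` and `t`, in two bases -/
lemma pair (H h : ℕ) (ε : ℝ) (hh : 1 ≤ h) (hε : 0 < ε) : ∃ K : ℝ, 0 ≤ K ∧
    ∀ (t : ℝ) (u v u' v' : ℤ), |u| ≤ H → |v| ≤ H → |u'| ≤ H → |v'| ≤ H → u * v' ≠ u' * v →
    ∀ b b' : ℕ, 2 ≤ b → 2 ≤ b' → ∀ L L' : ℕ, ∀ X : ℝ, X ≤ L * Real.log b → X ≤ L' * Real.log b' →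
      0 ≤ X → (1 / 2 - ε) * X ≤ order b h (u * Real.exp 1 + v * t) L * Real.log b +
        order b' h (u' * Real.exp 1 + v' * t) L' * Real.log b' +
        K * (Real.log b + Real.log b') := by
  obtain ⟨δ, hδ⟩ : ∃ δ : ℝ, δ = min ε 1 / 4 := ⟨_, rfl⟩
  have hδ0 : 0 < δ := by rw [hδ]; positivity
  have hδ1 : δ ≤ 1 / 4 := by rw [hδ]; linarith [min_le_right ε 1]
  have hδε : 4 * δ ≤ ε := by rw [hδ]; linarith [min_le_left ε 1]
  obtain ⟨C, hC0, hC⟩ := general (n := 1) le_rfl (fun _ => 1) inj1 (by simp) H h δ hh hδ0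
  obtain ⟨K, hK0, hK⟩ := F_linear C δ hC0 hδ0
  refine ⟨K, hK0, ?_⟩
  intro t u v u' v' hu hv hu' hv' hne b b' hb hb' L L' X hX hX' hX0
  obtain ⟨j, hj⟩ := hC t !![v, u; v', u'] (det_two hne) (bound_two hu hv hu' hv') ![b, b']
    (by intro j; fin_cases j <;> simp [hb, hb']) ![L, L']
  rw [comb_two, Fin.sum_univ_two] at hj
  simp only [Matrix.cons_val_zero, Matrix.cons_val_one] at hj
  obtain ⟨N, hN⟩ : ∃ N, N = order b h (u * Real.exp 1 + v * t) L := ⟨_, rfl⟩
  obtain ⟨N', hN'⟩ : ∃ N', N' = order b' h (u' * Real.exp 1 + v' * t) L' := ⟨_, rfl⟩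
  rw [← hN, ← hN'] at hj ⊢
  have hX1 : X ≤ (((![L, L'] : Fin 2 → ℕ) j : ℕ) : ℝ) *
      Real.log (((![b, b'] : Fin 2 → ℕ) j : ℕ) : ℝ) := by
    fin_cases j
    · exact hX
    · exact hX'
  have hlb : 0 ≤ Real.log b := Real.log_natCast_nonneg b
  have hlb' : 0 ≤ Real.log b' := Real.log_natCast_nonneg b'
  have h1 : X ≤ (2 + δ) * (((1 + δ) * N + K) * Real.log b + ((1 + δ) * N' + K) * Real.log b') := by
    have h2 := mul_le_mul_of_nonneg_right (hK N) hlb
    have h3 := mul_le_mul_of_nonneg_right (hK N') hlb'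
    have h4 := hX1.trans hj
    have h5 : (1 : ℝ) + 1 / ((1 : ℕ) : ℝ) + δ = 2 + δ := by norm_num
    rw [h5] at h4
    refine h4.trans (mul_le_mul_of_nonneg_left (by linarith) (by linarith))
  have hN0 : (0 : ℝ) ≤ N := Nat.cast_nonneg N
  have hN'0 : (0 : ℝ) ≤ N' := Nat.cast_nonneg N'
  obtain ⟨S, hS⟩ : ∃ S : ℝ, S = N * Real.log b + N' * Real.log b' := ⟨_, rfl⟩
  obtain ⟨T, hT⟩ : ∃ T : ℝ, T = K * (Real.log b + Real.log b') := ⟨_, rfl⟩
  have hS0 : 0 ≤ S := by rw [hS]; positivity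
  have hT0 : 0 ≤ T := by rw [hT]; positivity
  have h6 : X ≤ (2 + δ) * ((1 + δ) * S + T) := by
    rw [hS, hT]
    refine h1.trans (le_of_eq ?_)
    ring
  rw [← hS, ← hT]
  rcases le_or_gt (1 / 2) ε with h7 | h7
  · have : (1 / 2 - ε) * X ≤ 0 := mul_nonpos_of_nonpos_of_nonneg (by linarith) hX0
    linarith
  · have h8 : (1 / 2 - ε) * X ≤ (1 / 2 - ε) * ((2 + δ) * ((1 + δ) * S + T)) :=
      mul_le_mul_of_nonneg_left h6 (by linarith)
    have h9 : (1 / 2 - ε) * (2 + δ) * (1 + δ) ≤ 1 := by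
      have h10 : (1 / 2 - ε) ≤ 1 / 2 - 4 * δ := by linarith
      have h11 : (1 / 2 - ε) * ((2 + δ) * (1 + δ)) ≤ (1 / 2 - 4 * δ) * ((2 + δ) * (1 + δ)) :=
        mul_le_mul_of_nonneg_right h10 (by positivity)
      nlinarith [sq_nonneg δ, mul_nonneg (sq_nonneg δ) hδ0.le]
    have h12 : (1 / 2 - ε) * (2 + δ) ≤ 1 := by
      have h13 : 0 ≤ (1 / 2 - ε) * (2 + δ) * δ := by
        apply mul_nonneg _ hδ0.le
        apply mul_nonneg <;> linarith
      nlinarith
    calc (1 / 2 - ε) * X ≤ (1 / 2 - ε) * ((2 + δ) * ((1 + δ) * S + T)) := h8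
      _ = ((1 / 2 - ε) * (2 + δ) * (1 + δ)) * S + ((1 / 2 - ε) * (2 + δ)) * T := by ring
      _ ≤ 1 * S + 1 * T := by gcongr
      _ = S + T := by ring

/-- **Main theorem.** Let `F C m = m + C √((m + 1) log (m + 2))`, and let `N_(b,h)(x; L)` be the least
order of a linear recurrence over `ℚ` for the first `L` terms of an expansion
`x = n + ∑ s_i b ^ (-i-1)` with integers `n` and `s_i`, `|s_i| ≤ b ^ h`.

(1) Let `κ_1, …, κ_n` be distinct nonzero integers, `n ≥ 1`, `H ≥ 0`, `h ≥ 1` integers and `η > 0`.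
There is `C` such that for all real `t`, all nonsingular integral matrices `M` of order `n + 1` with
entries of absolute value at most `H`, all bases `b_j ≥ 2` and lengths `L_j`: with the
combinations `y_j` of `e ^ κ_1, …, e ^ κ_n, t` with the rows of `M` as coefficients,
`L_j log b_j ≤ (1 + 1 / n + η) ∑_i F C (N_(b_i,h)(y_i; L_i)) log b_i` for some `j`.

(2) For all real `t` and any integer vectors `(u, v)`, `(u', v')` which are not proportional, and for all
`b, b' ≥ 2` and `h, h' ≥ 1`: the sum of `liminf N_(b,h)(u e + v t; L) / L` and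
`limsup N_(b',h')(u' e + v' t; L) / L` is at least `1 / 2`.

(3) There is a line through the origin, given by `(u₀, v₀)`, such that
`limsup N_(b,h)(u e + v π; L) / L ≥ 1 / 4` for all `b ≥ 2`, all `h ≥ 1` and all integer vectors `(u, v)`
which are not on this line. (If `1, e, π` are linearly dependent over `ℚ` then
`N_(b,h)(u e + v π; L)` is bounded for all `(u, v)` on one line.) -/
theorem result :
    (∀ n : ℕ, 1 ≤ n → ∀ κ : Fin n → ℤ, Function.Injective κ → (∀ i, κ i ≠ 0) →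
      ∀ (H h : ℕ) (η : ℝ), 1 ≤ h → 0 < η → ∃ C : ℝ,
      ∀ (t : ℝ) (M : Matrix (Fin (n + 1)) (Fin (n + 1)) ℤ), M.det ≠ 0 → (∀ i j, |M i j| ≤ H) →
      ∀ b : Fin (n + 1) → ℕ, (∀ j, 2 ≤ b j) → ∀ L : Fin (n + 1) → ℕ,
        ∃ j, (L j : ℝ) * Real.log (b j) ≤ (1 + 1 / (n : ℝ) + η) *
          ∑ i, F C (order (b i) h (comb κ t M i) (L i)) * Real.log (b i)) ∧
    (∀ (t : ℝ) (u v u' v' : ℤ), u * v' ≠ u' * v → ∀ b b' : ℕ, 2 ≤ b → 2 ≤ b' →
      ∀ h h' : ℕ, 1 ≤ h → 1 ≤ h' → ∀ θ : ℝ, 0 ≤ θ →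
      (∀ᶠ L : ℕ in Filter.atTop, (order b' h' (u' * Real.exp 1 + v' * t) L : ℝ) ≤ θ * L) →
      ∀ ε : ℝ, 0 < ε → ∀ᶠ L : ℕ in Filter.atTop,
        (1 / 2 - θ - ε) * L ≤ order b h (u * Real.exp 1 + v * t) L) ∧
    (∃ u₀ v₀ : ℤ, (u₀, v₀) ≠ (0, 0) ∧ ∀ u v : ℤ, u * v₀ ≠ u₀ * v → ∀ b h : ℕ, 2 ≤ b → 1 ≤ h →
      ∀ ε : ℝ, 0 < ε → ∃ᶠ L : ℕ in Filter.atTop,
        (1 / 4 - ε) * L ≤ order b h (u * Real.exp 1 + v * Real.pi) L) := by
  have h3 : ∀ (t : ℝ) (u v u' v' : ℤ), u * v' ≠ u' * v → ∀ b b' : ℕ, 2 ≤ b → 2 ≤ b' →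
      ∀ h h' : ℕ, 1 ≤ h → 1 ≤ h' → ∀ θ : ℝ, 0 ≤ θ →
      (∀ᶠ L : ℕ in Filter.atTop, (order b' h' (u' * Real.exp 1 + v' * t) L : ℝ) ≤ θ * L) →
      ∀ ε : ℝ, 0 < ε → ∀ᶠ L : ℕ in Filter.atTop,
        (1 / 2 - θ - ε) * L ≤ order b h (u * Real.exp 1 + v * t) L := by
    intro t u v u' v' hne b b' hb hb' h h' hh hh' θ hθ hev ε hε
    have hbR : (2 : ℝ) ≤ b := by exact_mod_cast hb
    have hbR' : (2 : ℝ) ≤ b' := by exact_mod_cast hb'
    have hlb : 0 < Real.log b := Real.log_pos (by linarith)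
    have hlb' : 0 < Real.log b' := Real.log_pos (by linarith)
    rcases le_or_gt 1 ε with h7 | h7
    · filter_upwards with L
      have hL0 : (0 : ℝ) ≤ L := Nat.cast_nonneg L
      have : (1 / 2 - θ - ε) * L ≤ 0 := mul_nonpos_of_nonpos_of_nonneg (by linarith) hL0
      have h8 : (0 : ℝ) ≤ order b h (u * Real.exp 1 + v * t) L := Nat.cast_nonneg _
      linarith
    obtain ⟨K, hK0, hK⟩ := pair (max (max u.natAbs v.natAbs) (max u'.natAbs v'.natAbs)) (max h h')
      (ε / 2) (hh.trans (le_max_left _ _)) (by linarith)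
    obtain ⟨L₁, hL₁⟩ := Filter.eventually_atTop.1 hev
    obtain ⟨L₂, hL₂⟩ := exists_nat_gt ((L₁ : ℝ) * Real.log b' / Real.log b)
    obtain ⟨L₃, hL₃⟩ := exists_nat_gt
      ((θ * Real.log b' + K * (Real.log b + Real.log b')) / Real.log b * (2 / ε))
    filter_upwards [Filter.eventually_ge_atTop (max L₂ L₃)] with L hL
    have hLR2 : (L₂ : ℝ) ≤ L := by exact_mod_cast (le_max_left _ _).trans hL
    have hLR3 : (L₃ : ℝ) ≤ L := by exact_mod_cast (le_max_right _ _).trans hL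
    have hL0 : (0 : ℝ) ≤ L := Nat.cast_nonneg L
    obtain ⟨L', hL'⟩ : ∃ L' : ℕ, L' = ⌈(L : ℝ) * Real.log b / Real.log b'⌉₊ := ⟨_, rfl⟩
    have hL'1 : (L : ℝ) * Real.log b / Real.log b' ≤ L' := by rw [hL']; exact Nat.le_ceil _
    have hL'2 : (L' : ℝ) < (L : ℝ) * Real.log b / Real.log b' + 1 := by
      rw [hL']; exact Nat.ceil_lt_add_one (by positivity)
    rw [div_le_iff₀ hlb'] at hL'1
    have hL'3 : (L' : ℝ) * Real.log b' ≤ (L : ℝ) * Real.log b + Real.log b' := by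
      have := mul_le_mul_of_nonneg_right hL'2.le hlb'.le
      rw [add_mul, div_mul_cancel₀ _ hlb'.ne', one_mul] at this
      exact this
    have hL₁' : L₁ ≤ L' := by
      have h9 : (L₁ : ℝ) * Real.log b' / Real.log b < L := hL₂.trans_le hLR2
      rw [div_lt_iff₀ hlb] at h9
      have h10 : (L₁ : ℝ) * Real.log b' < L' * Real.log b' := h9.trans_le hL'1
      have h11 : (L₁ : ℝ) < L' := lt_of_mul_lt_mul_right h10 hlb'.le
      exact_mod_cast h11.le
    have hN' := hL₁ L' hL₁'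
    have hb1 : |u| ≤ ((max (max u.natAbs v.natAbs) (max u'.natAbs v'.natAbs) : ℕ) : ℤ) := by
      rw [Int.abs_eq_natAbs]; push_cast; simp
    have hb2 : |v| ≤ ((max (max u.natAbs v.natAbs) (max u'.natAbs v'.natAbs) : ℕ) : ℤ) := by
      rw [Int.abs_eq_natAbs]; push_cast; simp
    have hb3 : |u'| ≤ ((max (max u.natAbs v.natAbs) (max u'.natAbs v'.natAbs) : ℕ) : ℤ) := by
      rw [Int.abs_eq_natAbs]; push_cast; simp
    have hb4 : |v'| ≤ ((max (max u.natAbs v.natAbs) (max u'.natAbs v'.natAbs) : ℕ) : ℤ) := by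
      rw [Int.abs_eq_natAbs]; push_cast; simp
    have hmain := hK t u v u' v' hb1 hb2 hb3 hb4 hne b b' hb hb' L L' (L * Real.log b) le_rfl hL'1
      (by positivity)
    have ho1 : (order b (max h h') (u * Real.exp 1 + v * t) L : ℝ) ≤
        order b h (u * Real.exp 1 + v * t) L := by
      exact_mod_cast order_anti b h (max h h') hb hh (le_max_left _ _) _ L
    have ho2 : (order b' (max h h') (u' * Real.exp 1 + v' * t) L' : ℝ) ≤
        order b' h' (u' * Real.exp 1 + v' * t) L' := by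
      exact_mod_cast order_anti b' h' (max h h') hb' hh' (le_max_right _ _) _ L'
    obtain ⟨N, hN⟩ : ∃ N : ℝ, N = order b h (u * Real.exp 1 + v * t) L := ⟨_, rfl⟩
    rw [← hN] at ho1 ⊢
    have h12 : (1 / 2 - ε / 2) * (L * Real.log b) ≤ N * Real.log b + θ * L' * Real.log b' +
        K * (Real.log b + Real.log b') := by
      refine hmain.trans ?_
      have h13 := mul_le_mul_of_nonneg_right ho1 hlb.le
      have h14 := mul_le_mul_of_nonneg_right (ho2.trans hN') hlb'.le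
      linarith
    have h15 : θ * L' * Real.log b' ≤ θ * (L * Real.log b + Real.log b') := by
      rw [mul_assoc]
      exact mul_le_mul_of_nonneg_left hL'3 hθ
    have h16 : (θ * Real.log b' + K * (Real.log b + Real.log b')) / Real.log b * (2 / ε) < L :=
      hL₃.trans_le hLR3
    have h17 : θ * Real.log b' + K * (Real.log b + Real.log b') ≤ ε / 2 * L * Real.log b := by
      have e1 : (θ * Real.log b' + K * (Real.log b + Real.log b')) / Real.log b * (2 / ε) =
          (θ * Real.log b' + K * (Real.log b + Real.log b')) / (Real.log b * (ε / 2)) := by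
        field_simp
      rw [e1, div_lt_iff₀ (by positivity)] at h16
      linarith
    have h18 : (1 / 2 - θ - ε) * L * Real.log b ≤ N * Real.log b := by linarith
    exact le_of_mul_le_mul_right h18 hlb
  refine ⟨?_, h3, ?_⟩
  · intro n hn κ hκ h0 H h η hh hη
    obtain ⟨C, _, hC⟩ := general hn κ hκ h0 H h η hh hη
    exact ⟨C, hC⟩
  · by_cases hall : ∀ u v : ℤ, (u, v) ≠ (0, 0) → ∀ b h : ℕ, 2 ≤ b → 1 ≤ h →
      ∀ ε : ℝ, 0 < ε → ∃ᶠ L : ℕ in Filter.atTop,
        (1 / 4 - ε) * L ≤ order b h (u * Real.exp 1 + v * Real.pi) L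
    · refine ⟨1, 0, by simp, fun u v huv => hall u v ?_⟩
      intro h
      rw [Prod.mk.injEq] at h
      apply huv
      rw [h.1, h.2]
      simp
    · push Not at hall
      obtain ⟨u₀, v₀, hne0, b₀, h₀, hb₀, hh₀, ε₀, hε₀, hev⟩ := hall
      refine ⟨u₀, v₀, hne0, fun u v huv b h hb hh ε hε => ?_⟩
      have hev2 : ∀ᶠ L : ℕ in Filter.atTop,
          (order b₀ h₀ (u₀ * Real.exp 1 + v₀ * Real.pi) L : ℝ) ≤ (1 / 4) * L := by
        have hev3 : ∀ᶠ L : ℕ in Filter.atTop,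
            (order b₀ h₀ (u₀ * Real.exp 1 + v₀ * Real.pi) L : ℝ) < (1 / 4 - ε₀) * L := hev
        filter_upwards [hev3] with L h1
        have hL0 : (0 : ℝ) ≤ L := Nat.cast_nonneg L
        nlinarith
      have h1 := h3 Real.pi u v u₀ v₀ huv b b₀ hb hb₀ h h₀ hh hh₀ (1 / 4) (by norm_num) hev2 ε hε
      refine Filter.Eventually.frequently ?_
      filter_upwards [h1] with L h2
      have e1 : (1 : ℝ) / 2 - 1 / 4 - ε = 1 / 4 - ε := by ring
      rw [e1] at h2
      exact h2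

end Pool.Agent.Results.MP_58e087_nt.DigitRecurrences
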