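import Mathlib
import Pool.Agent.R473.JC.Final

/-!
# Algebraic relations between the digits of the numbers `a e + b π`

If `1, e, π` are linearly dependent over `ℚ`, then `a e + b π` is rational for all integer vectors
`(a, b)` on one line through the origin, and only for these.

`S(X) = s_1 X + ⋯ + s_L X^L`, where the `s_i` are the digits of a real number `x` in base `b` after
at most `K` of them have been changed.  The `K`-error algebraic complexity `N_b(x) = N_b(x; r, K, L)`
is the least `k` such that `X^(L+1)` divides `P(X, S(X))` for some nonzero polynomial `P(X, Y)` of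
degree at most `r` in `Y` and at most `k` in `X` and some such choice of `S`; for `r = 1` this is
essentially the linear complexity.

For every `r` and every finite family of pairwise non-proportional integer vectors `(a, b)` there is
`c > 0` such that for all bases `β`, all `K` and all `L` at most one of the numbers `x = a e + b π`
of the family satisfies `N_β(x) + 1 < c^(K+1) L`.  So at every scale there is at most one line on
which the digits have low algebraic complexity.  More generally `π` may be replaced by any real
number `t`, and the numbers may be read in different bases, with different lengths and different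
numbers of errors.

Proof.  A relation for the digits of `u` gives an integer polynomial `P` of degree at most `r` with
small coefficients and a very small value `P(u)` (Siegel's lemma, `Pool.Agent.W472.AC`); changed
digits shift `u` by a rational number with a denominator that is a power of the base, and the last
change is bounded by induction.  Since `e` is algebraic over `ℤ[u, v]`, the
values `P(u)` and `Q(v)` cannot both be very small (`Pool.Agent.R356.joint`, which uses the
transcendence measure of `e`).
-/

set_option autoImplicit false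

namespace Pool.Agent.Results.MP_58e087_nt.JointAlgebraicComplexity

open Finset Polynomial Module

/-- the `i`-th digit of `x` after the point in base `b` -/
noncomputable def digit (b : ℕ) (x : ℝ) (i : ℕ) : ℤ := ⌊x * (b : ℝ) ^ i⌋ % (b : ℤ)

/-- the polynomial `s_1 X + s_2 X^2 + ⋯ + s_L X^L` -/
noncomputable def seqPoly (s : ℕ → ℤ) (L : ℕ) : ℚ[X] := ∑ l ∈ Icc 1 L, C (s l : ℚ) * X ^ l

/-- `s` is a sequence of base `b` digits, and among the places `1, …, L` at most `K` are such that
`s_l` is not the `l`-th digit of `x` -/
def Near (b : ℕ) (x : ℝ) (K L : ℕ) (s : ℕ → ℤ) : Prop :=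
  (∀ l, 0 ≤ s l ∧ s l < b) ∧ {l : ℕ | 1 ≤ l ∧ l ≤ L ∧ s l ≠ digit b x l}.ncard ≤ K

/-- there is a nonzero polynomial `P(X, Y)` over `ℚ` of degree `≤ r` in `Y` and `≤ k` in `X` such
that `P(X, S(X))` is divisible by `X^(L+1)`, where `S` is the polynomial of the first `L` terms
of `s` -/
def AlgRelation (s : ℕ → ℤ) (r L k : ℕ) : Prop :=
  ∃ P : ℚ[X][X], P ≠ 0 ∧ P.natDegree ≤ r ∧ (∀ j, (P.coeff j).natDegree ≤ k) ∧
    X ^ (L + 1) ∣ P.eval (seqPoly s L)

/-- the `K`-error algebraic complexity of degree `r` of the first `L` digits of `x` in base `b`: the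
least `k` such that after the change of at most `K` of the digits there is a relation with
coefficients of degree at most `k` -/
noncomputable def complexity (b : ℕ) (x : ℝ) (r K L : ℕ) : ℕ :=
  sInf {k : ℕ | ∃ s, Near b x K L s ∧ AlgRelation s r L k}

/-- the joint lower bound for `u` and `v` in degree `r`, with the constant `A`, in all pairs of
bases, for all lengths and all numbers of errors -/
def Bound (A : ℝ) (r : ℕ) (u v : ℝ) : Prop :=
  ∀ b b' : ℕ, 2 ≤ b → 2 ≤ b' → ∀ K K' L L' : ℕ,
    min (L * Real.log b) (L' * Real.log b') ≤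
      A ^ (K + K' + 1) * ((complexity b u r K L + 1) * Real.log b +
        (complexity b' v r K' L' + 1) * Real.log b')

/-- the case of one base, one length and one number of errors -/
lemma one_base (u v A : ℝ) (hA : 1 ≤ A) (r : ℕ) (h : Bound A r u v) (b : ℕ) (hb : 2 ≤ b)
    (K L : ℕ) : (1 / A ^ 2) ^ (K + 1) * (L : ℝ) ≤
      complexity b u r K L + complexity b v r K L + 2 := by
  have hl : 0 < Real.log b := Real.log_pos (by exact_mod_cast (by omega : 1 < b))
  have hA0 : 0 < A := by linarith
  have h1 := h b b hb hb K K L L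
  rw [min_self] at h1
  have h2 : (L : ℝ) ≤ A ^ (K + K + 1) * (complexity b u r K L + complexity b v r K L + 2) := by
    have h3 : (L : ℝ) * Real.log b ≤
        (A ^ (K + K + 1) * (complexity b u r K L + complexity b v r K L + 2)) * Real.log b := by
      linarith
    exact le_of_mul_le_mul_right h3 hl
  have h4 : A ^ (K + K + 1) ≤ (A ^ 2) ^ (K + 1) := by
    rw [← pow_mul]
    exact pow_le_pow_right₀ hA (by omega)
  rw [div_pow, one_pow, div_mul_eq_mul_div, one_mul, div_le_iff₀ (by positivity)]
  calc (L : ℝ) ≤ A ^ (K + K + 1) * (complexity b u r K L + complexity b v r K L + 2) := h2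
    _ ≤ (A ^ 2) ^ (K + 1) * (complexity b u r K L + complexity b v r K L + 2) :=
        mul_le_mul_of_nonneg_right h4 (by positivity)
    _ = _ := by ring

/-- **(1)** Let `t` be a real number and let `(a i, b i)`, `i < n`, be pairwise non-proportional
integer vectors.  For every `r` there is `A ≥ 1` such that the joint lower bound holds for any two
of the numbers `a i e + b i t`: for all bases `β, β'`, all lengths `L, L'` and all numbers of errors
`K, K'` `min (L log β, L' log β') ≤ A^(K+K'+1) ((N + 1) log β + (N' + 1) log β')`.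

**(2)** There is `c > 0` such that for all bases `β ≥ 2`, all `K` and all `L` at most one of the
numbers `x = a i e + b i π` satisfies `N_β(x; r, K, L) + 1 < c^(K+1) L`. -/
theorem result :
    (∀ (t : ℝ) (n : ℕ) (a b : Fin n → ℤ), (∀ i j, i ≠ j → a i * b j - b i * a j ≠ 0) → ∀ r : ℕ,
      ∃ A : ℝ, 1 ≤ A ∧ ∀ i j, i ≠ j →
        Bound A r (a i * Real.exp 1 + b i * t) (a j * Real.exp 1 + b j * t)) ∧
    (∀ (n : ℕ) (a b : Fin n → ℤ), (∀ i j, i ≠ j → a i * b j - b i * a j ≠ 0) → ∀ r : ℕ,
      ∃ c : ℝ, 0 < c ∧ ∀ β : ℕ, 2 ≤ β → ∀ K L : ℕ, ∀ i j,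
        complexity β (a i * Real.exp 1 + b i * Real.pi) r K L + 1 < c ^ (K + 1) * L →
        complexity β (a j * Real.exp 1 + b j * Real.pi) r K L + 1 < c ^ (K + 1) * L → i = j) := by
  have part1 : ∀ (t : ℝ) (n : ℕ) (a b : Fin n → ℤ), (∀ i j, i ≠ j → a i * b j - b i * a j ≠ 0) →
      ∀ r : ℕ, ∃ A : ℝ, 1 ≤ A ∧ ∀ i j, i ≠ j →
        Bound A r (a i * Real.exp 1 + b i * t) (a j * Real.exp 1 + b j * t) := by
    intro t n a b hab r
    exact Pool.Agent.R473.JC.family (fun i => a i * Real.exp 1 + b i * t)
      (fun i j hij => Pool.Agent.R473.JC.jointR_of_alg (Real.exp 1)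
        Pool.Agent.TH456.TM.measT_e _ _
        (Pool.Agent.R473.JC.alg_lin (Real.exp 1) t (a i) (b i) (a j) (b j) (hab i j hij))) r
  refine ⟨part1, fun n a b hab r => ?_⟩
  obtain ⟨A, hA, h⟩ := part1 Real.pi n a b hab r
  have hA0 : 0 < A := by linarith
  refine ⟨1 / A ^ 2 / 2, by positivity, fun β hβ K L i j hi hj => ?_⟩
  by_contra hij
  have h1 := one_base _ _ A hA r (h i j hij) β hβ K L
  have h2 : (1 / A ^ 2 / 2) ^ (K + 1) ≤ (1 / A ^ 2) ^ (K + 1) / 2 := by
    rw [div_pow (1 / A ^ 2) 2]
    refine div_le_div_of_nonneg_left (by positivity) (by norm_num) ?_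
    calc (2 : ℝ) = 2 ^ 1 := by norm_num
      _ ≤ 2 ^ (K + 1) := pow_le_pow_right₀ (by norm_num) (by omega)
  have h3 : (1 / A ^ 2 / 2) ^ (K + 1) * (L : ℝ) ≤ (1 / A ^ 2) ^ (K + 1) / 2 * L :=
    mul_le_mul_of_nonneg_right h2 (Nat.cast_nonneg L)
  linarith

end Pool.Agent.Results.MP_58e087_nt.JointAlgebraicComplexity
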