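import Pool.Agent.R523.NearB
import Pool.Agent.W472.AC.EMeas2

/-!
# Polynomial near relations between `e` and an arbitrary number are sparse
-/

set_option autoImplicit false

namespace Pool.Agent.Results.MP_58e087_nt.NearPolynomialRelations

open Finset Polynomial

/-- the largest absolute value of a coefficient of `P` -/
noncomputable def height (P : ℤ[X][X]) : ℕ :=
  P.support.sup fun j => (P.coeff j).support.sup fun i => ((P.coeff j).coeff i).natAbs

/-- the near relations: irreducible integer polynomials `P(x, y)`, normalised by a positive leading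
coefficient, of degree at most `m` in `x` and `n` in `y`, of height at most `X`, with
`|P(e, t)| ≤ (height P) ^ (-w)` -/
def Near (m n : ℕ) (t : ℂ) (w X : ℝ) : Set ℤ[X][X] :=
  {P | Irreducible P ∧ 0 < P.leadingCoeff.leadingCoeff ∧ (∀ j, (P.coeff j).natDegree ≤ m) ∧
    P.natDegree ≤ n ∧ (height P : ℝ) ≤ X ∧
    ‖aevalAeval (Real.exp 1 : ℂ) t P‖ ≤ (height P : ℝ) ^ (-w)}

/-- **Near relations between `e` and `t` are sparse.** Let `w > 4mn² + 2n - 1` and
`1 < ρ < (w - n + 1 - 2mn²) / (n (2mn + 1))`. There is `C`, depending only on `m`, `n`, `w`, `ρ`, `T`,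
such that for every complex `t` with `|t| ≤ T` there are at most `log log X / log ρ + C` near relations
of height at most `X`. For `t = π` and `m = n = 1` these are the small values of
`a + b e + c π + d e π`, and `w > 5`, `ρ < (w - 2) / 3`. -/
theorem result (m n : ℕ) (hn : 1 ≤ n) (w ρ T : ℝ) (hw : 4 * m * n ^ 2 + 2 * n - 1 < w) (hρ : 1 < ρ)
    (hρw : ρ < (w - n + 1 - 2 * m * n ^ 2) / (n * (2 * m * n + 1))) :
    ∃ C : ℝ, ∀ t : ℂ, ‖t‖ ≤ T → ∀ X : ℝ, 3 ≤ X → (Near m n t w X).Finite ∧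
      ((Near m n t w X).ncard : ℝ) ≤ Real.log (Real.log X) / Real.log ρ + C := by
  have hnR : (1 : ℝ) ≤ n := by exact_mod_cast hn
  have hmR : (0 : ℝ) ≤ m := Nat.cast_nonneg m
  obtain ⟨D, hD⟩ : ∃ D : ℝ, D = w - n + 1 - 2 * m * n ^ 2 - ρ * (n * (2 * m * n + 1)) := ⟨_, rfl⟩
  have hD0 : 0 < D := by
    rw [lt_div_iff₀ (by positivity)] at hρw
    rw [hD]; linarith
  obtain ⟨η, hη⟩ : ∃ η : ℝ, η = min ((w - (4 * m * n ^ 2 + 2 * n - 1)) / (4 * n))
    (D / (2 * (ρ * n + n))) := ⟨_, rfl⟩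
  have hη0 : 0 < η := by
    rw [hη]
    exact lt_min (div_pos (by linarith) (by positivity)) (by positivity)
  have hη1 : η * (4 * n) ≤ w - (4 * m * n ^ 2 + 2 * n - 1) := by
    rw [← le_div_iff₀ (by positivity), hη]
    exact min_le_left _ _
  have hη2 : η * (2 * (ρ * n + n)) ≤ D := by
    rw [← le_div_iff₀ (by positivity), hη]
    exact min_le_right _ _
  obtain ⟨c, hc, hmeas⟩ := Pool.Agent.W472.AC.e_measP (2 * n * m) η hη0
  obtain ⟨κ, hκ⟩ : ∃ κ : ℝ, κ = ((2 * n * m : ℕ) : ℝ) + η := ⟨_, rfl⟩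
  have hκ' : κ = 2 * n * m + η := by rw [hκ]; push_cast; ring
  have hκ0 : 0 ≤ κ := by rw [hκ]; positivity
  obtain ⟨C, hC⟩ := Pool.Agent.R523.Gel.near_count (Real.exp 1 : ℂ) m n hn κ c hκ0 hc
    (fun R hR hRd H hH hRH => by
      have h1 := hmeas R hR hRd H hH hRH
      have h2 : ‖aeval (Real.exp 1 : ℂ) R‖ = |aeval (Real.exp 1) R| := by
        have h3 : aeval (Real.exp 1 : ℂ) R = ((aeval (Real.exp 1) R : ℝ) : ℂ) := by
          have := aeval_algebraMap_apply ℂ (Real.exp 1) R
          simpa using this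
        rw [h3, Complex.norm_real, Real.norm_eq_abs]
      rw [h2, hκ]
      exact h1) w ρ (by
      rw [hκ']
      have : 0 < n * η := by positivity
      nlinarith) hρ (by
      rw [lt_div_iff₀ (by positivity), hκ']
      have h1 : 0 < η * (ρ * n + n) := by positivity
      have h2 : ρ * (n * (1 + (2 * n * m + η))) = ρ * (n * (2 * m * n + 1)) + η * (ρ * n) := by ring
      rw [h2]
      have h3 : w - (n - 1) - n * (2 * n * m + η) = (w - n + 1 - 2 * m * n ^ 2) - η * n := by ring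
      rw [h3]
      nlinarith) T
  refine ⟨C, fun t ht X hX => ?_⟩
  have hset : Near m n t w X = Pool.Agent.R523.Gel.Near (Real.exp 1 : ℂ) m n t w X := by
    ext P
    constructor
    · rintro ⟨h1, h2, h3, h4, h5, h6⟩
      refine ⟨h1, h2, h4, h3, h5, ?_⟩
      rw [Pool.Agent.TH456.TM.vl_eq]
      exact h6
    · rintro ⟨h1, h2, h3, h4, h5, h6⟩
      refine ⟨h1, h2, h4, h3, h5, ?_⟩
      rw [Pool.Agent.TH456.TM.vl_eq] at h6
      exact h6
  rw [hset]
  exact hC t ht X hX

end Pool.Agent.Results.MP_58e087_nt.NearPolynomialRelations
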