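import Pool.Agent.W472.AC.EMeas2
import Pool.Agent.R523.Form

/-!
# Uniform approximation and the linear independence of `1, e, t`

For a real number `t` let `λ` be the supremum of the exponents `lam` such that for all large `X` there
is `q ≤ X` with `‖q e‖, ‖q t‖ ≤ X ^ (-lam)`, and `ω` the supremum of the exponents `w` such that for
all large `X` there are integers `a, b, c` of absolute value at most `X`, not all zero, with
`|a + b e + c t| ≤ X ^ (-w)`. By Dirichlet `λ ≥ 1 / 2` and `ω ≥ 2`; and `λ = 1`, `ω = ∞` if `1, e, t`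
are linearly dependent over `ℚ`. We prove that otherwise `λ ≤ (√5 - 1) / 2 = 0.618…` and
`ω ≤ (3 + √5) / 2 = 2.618…`. So `1, e, π` are linearly independent over `ℚ` if and only if there are
arbitrarily large `X` such that no `q ≤ X` satisfies `‖q e‖, ‖q π‖ ≤ X ^ (-0.6181)`.

Proof: minimal points; infinitely many triples of consecutive minimal points are linearly independent,
and `e` has the measure of irrationality `2` (starting file `Pool/Agent/W472/AC/EMeas2.lean`).
-/

set_option autoImplicit false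

namespace Pool.Agent.Results.MP_58e087_nt.UniformExponents

open Filter Pool.Agent.R523.MinSeq Pool.Agent.R523.Sim Pool.Agent.R523.Form

/-- `1, e, t` are linearly independent over `ℚ` -/
def Independent (t : ℝ) : Prop :=
  ∀ a b c : ℤ, (a : ℝ) + b * Real.exp 1 + c * t = 0 → a = 0 ∧ b = 0 ∧ c = 0

/-- there is a positive integer `q ≤ X` with `‖q e‖, ‖q t‖ ≤ X ^ (-lam)` -/
def Simultaneous (t lam : ℝ) (X : ℕ) : Prop :=
  ∃ q : ℕ, 1 ≤ q ∧ q ≤ X ∧ ∃ p r : ℤ, |(q : ℝ) * Real.exp 1 - p| ≤ (X : ℝ) ^ (-lam) ∧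
    |(q : ℝ) * t - r| ≤ (X : ℝ) ^ (-lam)

/-- there are integers `a, b, c`, not all zero, of absolute value at most `X` with
`|a + b e + c t| ≤ X ^ (-w)` -/
def SmallForm (t w : ℝ) (X : ℕ) : Prop :=
  ∃ a b c : ℤ, (a, b, c) ≠ (0, 0, 0) ∧ |a| ≤ X ∧ |b| ≤ X ∧ |c| ≤ X ∧
    |(a : ℝ) + b * Real.exp 1 + c * t| ≤ (X : ℝ) ^ (-w)

lemma good_e : Good (Real.exp 1) := by
  intro η hη
  obtain ⟨c, hc, hM⟩ := Pool.Agent.W472.AC.e_meas 1 ![0, 1] (by
    intro i j hij
    fin_cases i <;> fin_cases j <;> simp_all) rfl (by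
    intro i
    fin_cases i <;> simp) η hη
  refine ⟨c, hc, fun a b hab H hH ha hb => ?_⟩
  have h1 := hM ![a, b] (by
    intro h0
    rcases hab with h | h
    · exact h (congrFun h0 0)
    · exact h (congrFun h0 1)) H hH (by
    intro j
    fin_cases j
    · exact ha
    · exact hb)
  rw [Fin.sum_univ_two] at h1
  simpa using h1

lemma dep_of {t : ℝ} (h : ∃ a b c : ℤ, (a, b, c) ≠ (0, 0, 0) ∧
    (a : ℝ) + b * Real.exp 1 + c * t = 0) : ¬ Independent t := by
  obtain ⟨a, b, c, h1, h2⟩ := h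
  intro hI
  obtain ⟨ha, hb, hc⟩ := hI a b c h2
  exact h1 (by rw [ha, hb, hc])

/-- **Main theorem.** Let `t` be a real number (Q1 is the case `t = π`).

(1) Let `(√5 - 1) / 2 < lam < 1`. Then `1, e, t` are linearly independent over `ℚ` if and only if there
are arbitrarily large `X` such that no `1 ≤ q ≤ X` satisfies `‖q e‖, ‖q t‖ ≤ X ^ (-lam)`.

(2) Let `w > (3 + √5) / 2`. Then `1, e, t` are linearly independent over `ℚ` if and only if there
are arbitrarily large `X` such that `|a + b e + c t| > X ^ (-w)` for all integers `a, b, c` of absolute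
value at most `X`, not all zero. -/
theorem result (t : ℝ) :
    (∀ lam : ℝ, (√5 - 1) / 2 < lam → lam < 1 →
      (Independent t ↔ ∃ᶠ X : ℕ in atTop, ¬ Simultaneous t lam X)) ∧
    (∀ w : ℝ, (3 + √5) / 2 < w →
      (Independent t ↔ ∃ᶠ X : ℕ in atTop, ¬ SmallForm t w X)) := by
  have h5 : √5 ^ 2 = 5 := Real.sq_sqrt (by norm_num)
  have h50 : 0 ≤ √5 := Real.sqrt_nonneg 5
  have h52 : 2 < √5 := by
    have : (2 : ℝ) = √4 := by
      rw [show (4 : ℝ) = 2 ^ 2 by norm_num, Real.sqrt_sq (by norm_num)]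
    rw [this]
    exact Real.sqrt_lt_sqrt (by norm_num) (by norm_num)
  refine ⟨fun lam hl1 hl2 => ⟨fun hI => ?_, fun hF => ?_⟩, fun w hw => ⟨fun hI => ?_, fun hF => ?_⟩⟩
  · -- no uniform simultaneous approximation in the independent case
    by_contra hcon
    rw [not_frequently] at hcon
    have hS : ∀ᶠ X : ℕ in atTop, ∃ q : ℕ, 1 ≤ q ∧ q ≤ X ∧ ∃ p r : ℤ,
        |(q : ℝ) * Real.exp 1 - p| ≤ (X : ℝ) ^ (-lam) ∧ |(q : ℝ) * t - r| ≤ (X : ℝ) ^ (-lam) := by
      filter_upwards [hcon] with X hX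
      exact not_not.1 hX
    obtain ⟨a, b, c, hc, h⟩ := simult (Real.exp 1) t lam good_e (by linarith) hl2 (by nlinarith) hS
    exact hc (hI a b c h).2.2
  · -- the dependent case
    by_contra hI
    unfold Independent at hI
    push Not at hI
    obtain ⟨a, b, c, h0, h1⟩ := hI
    have hc0 : c ≠ 0 := by
      intro hc
      rw [hc] at h0
      push_cast at h0
      rw [zero_mul, add_zero] at h0
      have hab : a = 0 ∧ b = 0 := by
        by_contra hab
        rw [not_and_or] at hab
        exact good_e.ne_zero a b hab h0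
      exact h1 hab.1 hab.2 hc
    have hcN : 1 ≤ c.natAbs := Int.natAbs_pos.mpr hc0
    have hcR : (c.natAbs : ℝ) = |(c : ℝ)| := by rw [Nat.cast_natAbs, Int.cast_abs]
    have hcR1 : (1 : ℝ) ≤ |(c : ℝ)| := by rw [← hcR]; exact_mod_cast hcN
    apply hF
    -- Dirichlet's theorem for `e`
    obtain ⟨B, hB⟩ : ∃ B : ℝ, B = (|(b : ℝ)| + |(c : ℝ)|) * |(c : ℝ)| := ⟨_, rfl⟩
    have hB0 : 0 < B := by rw [hB]; positivity
    have htend : Tendsto (fun X : ℕ => (X : ℝ) ^ (1 - lam)) atTop atTop :=
      (tendsto_rpow_atTop (by linarith)).comp tendsto_natCast_atTop_atTop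
    filter_upwards [htend.eventually_ge_atTop B, eventually_ge_atTop c.natAbs] with X hX1 hX2
    rw [not_not]
    have hX0 : 0 < X := by omega
    have hXR : (0 : ℝ) < X := by exact_mod_cast hX0
    obtain ⟨Y, hY⟩ : ∃ Y : ℕ, Y = X / c.natAbs := ⟨_, rfl⟩
    have hY0 : 0 < Y := by rw [hY]; exact Nat.div_pos hX2 hcN
    obtain ⟨p, q, hq0, hqY, hpq⟩ := Real.exists_int_int_abs_mul_sub_le (Real.exp 1) hY0
    have hYX : (X : ℝ) / |(c : ℝ)| ≤ (Y : ℝ) + 1 := by
      rw [div_le_iff₀ (by linarith), ← hcR]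
      have h2 : X < (Y + 1) * c.natAbs := by
        rw [hY]
        have := Nat.lt_mul_div_succ X hcN
        rw [mul_comm] at this
        exact this
      exact_mod_cast h2.le
    have herr : |(q : ℝ) * Real.exp 1 - p| ≤ |(c : ℝ)| / X := by
      refine hpq.trans ?_
      rw [one_div, ← inv_div]
      exact inv_anti₀ (by positivity) hYX
    have hmain : (|(b : ℝ)| + |(c : ℝ)|) * (|(c : ℝ)| / X) ≤ (X : ℝ) ^ (-lam) := by
      have h2 : (X : ℝ) ^ (1 - lam) = X * (X : ℝ) ^ (-lam) := by
        rw [sub_eq_add_neg, Real.rpow_add hXR, Real.rpow_one]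
      rw [h2] at hX1
      rw [← mul_div_assoc, ← hB, div_le_iff₀ hXR]
      linarith
    have hcX : 0 ≤ |(c : ℝ)| / X := by positivity
    refine ⟨c.natAbs * q.toNat, ?_, ?_, |c| * p, c.sign * (-(a * q) - b * p), ?_, ?_⟩
    · have : 0 < q.toNat := by omega
      exact Nat.mul_pos hcN this
    · have h2 : q.toNat ≤ Y := by omega
      calc c.natAbs * q.toNat ≤ c.natAbs * Y := Nat.mul_le_mul_left _ h2
        _ ≤ X := by rw [hY]; exact Nat.mul_div_le X _
    · have h2 : ((c.natAbs * q.toNat : ℕ) : ℝ) = |(c : ℝ)| * q := by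
        push_cast
        rw [hcR]
        congr 1
        have : ((q.toNat : ℤ) : ℝ) = (q : ℝ) := by rw [Int.toNat_of_nonneg hq0.le]
        exact_mod_cast this
      rw [h2]
      have h3 : |(c : ℝ)| * q * Real.exp 1 - ((|c| * p : ℤ) : ℝ) =
          |(c : ℝ)| * ((q : ℝ) * Real.exp 1 - p) := by
        push_cast
        ring
      rw [h3, abs_mul, abs_abs]
      refine le_trans ?_ hmain
      exact mul_le_mul (by linarith [abs_nonneg (b : ℝ)]) herr (abs_nonneg _) (by positivity)
    · have h2 : ((c.natAbs * q.toNat : ℕ) : ℝ) = (c.sign : ℝ) * c * q := by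
        push_cast
        have h3 : ((q.toNat : ℤ) : ℝ) = (q : ℝ) := by rw [Int.toNat_of_nonneg hq0.le]
        have h3' : (q.toNat : ℝ) = q := by exact_mod_cast h3
        have h4' : (c.natAbs : ℝ) = (c.sign : ℝ) * c := by
          rw [hcR, ← Int.cast_abs, ← Int.sign_mul_self_eq_abs]
          push_cast
          ring
        rw [h3', ← h4']
      rw [h2]
      have h3 : (c.sign : ℝ) * c * q * t - ((c.sign * (-(a * q) - b * p) : ℤ) : ℝ) =
          (c.sign : ℝ) * (-b * ((q : ℝ) * Real.exp 1 - p)) := by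
        push_cast
        linear_combination (c.sign : ℝ) * q * h0
      rw [h3, abs_mul, abs_mul, abs_neg]
      have h4 : |(c.sign : ℝ)| = 1 := by
        rcases lt_or_gt_of_ne hc0 with h | h
        · rw [Int.sign_eq_neg_one_of_neg h]; simp
        · rw [Int.sign_eq_one_of_pos h]; simp
      rw [h4, one_mul]
      refine le_trans ?_ hmain
      exact mul_le_mul (by linarith) herr (abs_nonneg _) (by positivity)
  · by_contra hcon
    rw [not_frequently] at hcon
    have hS : ∀ᶠ X : ℕ in atTop, ∃ x : Fin 3 → ℤ, x ≠ 0 ∧ ht x ≤ X ∧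
        |(x 0 : ℝ) + x 1 * Real.exp 1 + x 2 * t| ≤ (X : ℝ) ^ (-w) := by
      filter_upwards [hcon] with X hX
      obtain ⟨a, b, c, h1, h2, h3, h4, h6⟩ := not_not.1 hX
      refine ⟨![a, b, c], ?_, ?_, h6⟩
      · intro h7
        apply h1
        have e0 := congrFun h7 0
        have e1 := congrFun h7 1
        have e2 := congrFun h7 2
        simp only [Matrix.cons_val_zero, Matrix.cons_val_one, Matrix.cons_val, Pi.zero_apply]
          at e0 e1 e2
        rw [e0, e1, e2]
      · unfold ht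
        rw [Int.abs_eq_natAbs] at h2 h3 h4
        refine max_le (max_le ?_ ?_) ?_
        · exact_mod_cast h2
        · exact_mod_cast h3
        · exact_mod_cast h4
    obtain ⟨x, hx, h⟩ := form (Real.exp 1) t w good_e (by linarith) (by nlinarith) hS
    obtain ⟨h1, h2, h3⟩ := hI _ _ _ h
    rcases vec_ne_zero hx with h4 | h4 | h4
    · exact h4 h1
    · exact h4 h2
    · exact h4 h3
  · by_contra hI
    unfold Independent at hI
    push Not at hI
    obtain ⟨a, b, c, h0, h1⟩ := hI
    apply hF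
    filter_upwards [eventually_ge_atTop (max (max a.natAbs b.natAbs) c.natAbs)] with X hX
    rw [not_not]
    refine ⟨a, b, c, ?_, ?_, ?_, ?_, ?_⟩
    · intro h2
      rw [Prod.mk.injEq, Prod.mk.injEq] at h2
      exact h1 h2.1 h2.2.1 h2.2.2
    · rw [Int.abs_eq_natAbs]
      exact_mod_cast (le_max_left _ _).trans ((le_max_left _ _).trans hX)
    · rw [Int.abs_eq_natAbs]
      exact_mod_cast (le_max_right _ _).trans ((le_max_left _ _).trans hX)
    · rw [Int.abs_eq_natAbs]
      exact_mod_cast (le_max_right _ _).trans hX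
    · rw [h0, abs_zero]
      exact Real.rpow_nonneg (Nat.cast_nonneg _) _

end Pool.Agent.Results.MP_58e087_nt.UniformExponents
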